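import Pool.Agent.Helper65.Clique.Defs

/-!
# A quadratic potential for Maker in the `(m : m)` clique game: definitions

`V` is the set of vertices, `φ A` is the weight of the structure `A` (a set of vertices),
`mass φ S` is the total weight of the structures which contain `S`, and `cap S` is a capacity.
-/

set_option autoImplicit false

namespace Pool.Agent.Helper75.CG

open scoped Classical
open Finset
open Pool.Agent.Helper65.CliqueGame

section abstract

variable {V : Type} [Fintype V] {ι : Type}

/-- the total mass of the sets containing `S` -/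
noncomputable def mass (φ : Finset V → ℝ) (S : Finset V) : ℝ :=
  ∑ A ∈ univ.filter (fun A : Finset V => S ⊆ A), φ A

/-- the mass relative to the capacity -/
noncomputable def rat (φ cap : Finset V → ℝ) (S : Finset V) : ℝ := mass φ S / cap S

/-- the potential -/
noncomputable def PP (SS : Finset (Finset V)) (φ cap : Finset V → ℝ) : ℝ :=
  mass φ ∅ - ∑ S ∈ SS, mass φ S ^ 2 / cap S

/-- the (first order) value of `κ` -/
noncomputable def DD (SS : Finset (Finset V)) (φ cap : Finset V → ℝ) (κ : Finset V) : ℝ :=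
  mass φ κ - ∑ S ∈ SS, (if κ ⊆ S then 1 else 2) * rat φ cap S * mass φ (S ∪ κ)

/-- the second order term -/
noncomputable def RR (SS : Finset (Finset V)) (φ cap : Finset V → ℝ) (κ : Finset V) : ℝ :=
  ∑ S ∈ SS.filter (fun S => ¬ κ ⊆ S), mass φ (S ∪ κ) ^ 2 / cap S

/-- multiply by `1 + μ` everything that contains `κ` (used for weights and for capacities) -/
noncomputable def claim1 (μ : ℝ) (κ : Finset V) (f : Finset V → ℝ) : Finset V → ℝ :=
  fun A => if κ ⊆ A then (1 + μ) * f A else f A

/-- kill everything that contains `κ` -/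
noncomputable def kill1 (κ : Finset V) (f : Finset V → ℝ) : Finset V → ℝ :=
  fun A => if κ ⊆ A then 0 else f A

/-- claim all `κ i`, `i ∈ I` -/
noncomputable def claims (μ : ℝ) (κ : ι → Finset V) (I : Finset ι) (f : Finset V → ℝ) :
    Finset V → ℝ :=
  fun A => (1 + μ) ^ (I.filter (fun i => κ i ⊆ A)).card * f A

/-- kill everything that contains some `κ j`, `j ∈ J` -/
noncomputable def kills (κ : ι → Finset V) (J : Finset ι) (f : Finset V → ℝ) : Finset V → ℝ :=
  fun A => if ∃ j ∈ J, κ j ⊆ A then 0 else f A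

/-- weights are nonnegative, capacities positive, and every structure of positive weight has
load at most `K` -/
structure Good (K : ℝ) (SS : Finset (Finset V)) (φ cap : Finset V → ℝ) : Prop where
  nonneg : ∀ A, 0 ≤ φ A
  pos : ∀ S, 0 < cap S
  load : ∀ A, φ A ≠ 0 → ∑ S ∈ SS.filter (fun S => S ⊆ A), rat φ cap S ≤ K

/-- the capacities decrease by a factor `ν` at least when `κ` is added (inside structures) -/
def Slope (ν : ℝ) (SS : Finset (Finset V)) (φ cap : Finset V → ℝ) (κ : Finset V) : Prop :=
  ∀ A, φ A ≠ 0 → ∀ S ∈ SS, S ∪ κ ⊆ A → ¬ κ ⊆ S → S ∪ κ ∈ SS ∧ cap (S ∪ κ) ≤ ν * cap S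

/-- the same, with the capacities after all future claims of `act` -/
def SlopeA (ν : ℝ) (SS : Finset (Finset V)) (φ cap : Finset V → ℝ) (act : Finset ι)
    (κ : ι → Finset V) (μ : ℝ) : Prop :=
  ∀ A, φ A ≠ 0 → ∀ S ∈ SS, ∀ i ∈ act, S ∪ κ i ⊆ A → ¬ κ i ⊆ S → S ∪ κ i ∈ SS ∧
    (1 + μ) ^ (act.filter (fun j => κ j ⊆ S ∪ κ i ∧ ¬ κ j ⊆ S)).card * cap (S ∪ κ i) ≤ ν * cap S

/-- Breaker owns no edge inside a structure of positive weight -/
def AliveB {n : ℕ} (emb : V ↪ Fin n) (φ : Finset V → ℝ) (B : Finset (Sym2 (Fin n))) : Prop :=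
  ∀ A, φ A ≠ 0 → ∀ x ∈ A, ∀ y ∈ A, x ≠ y → s(emb x, emb y) ∉ B

/-- select `Y` in the district `d`: the structures that meet `d` in another set are killed, those
with `A ∩ d = Y` are multiplied by `N` -/
noncomputable def select (N : ℝ) (d Y : Finset V) (f : Finset V → ℝ) : Finset V → ℝ :=
  fun A => if A ∩ d = Y then N * f A else if A ∩ d = ∅ then f A else 0

/-- the capacities after a selection -/
noncomputable def selectCap (N : ℝ) (d Y : Finset V) (f : Finset V → ℝ) : Finset V → ℝ :=
  fun A => if A ∩ d = Y then N * f A else f A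

end abstract

end Pool.Agent.Helper75.CG
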