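import Pool.Agent.Helper75.CG.Defs

/-!
# Generations of blocks: definitions

The vertex set `V` is divided into districts (`dis : V → Δ`), the districts into generations
`0, …, R` (`gen : Δ → ℕ`).  A structure `A` meets exactly `k j` districts of generation `j`, each of
them in `bs j` vertices, where `bs j = m` for `j < R` (blocks) and `bs R = 1` (singles, the districts
of generation `R` have one vertex).
-/

set_option autoImplicit false

namespace Pool.Agent.Helper75.CG

open scoped Classical
open Finset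
open Pool.Agent.Helper65.CliqueGame

structure Setup (V Δ : Type) [Fintype V] [Fintype Δ] where
  R : ℕ
  m : ℕ
  dis : V → Δ
  gen : Δ → ℕ
  /-- the districts of generation `j` have `2 ^ z j` vertices -/
  z : ℕ → ℕ
  /-- there are `2 ^ y j` districts of generation `j` -/
  y : ℕ → ℕ
  k : ℕ → ℕ
  hm : 2 ≤ m
  gen_le : ∀ δ, gen δ ≤ R
  card_dis : ∀ δ, (univ.filter (fun x => dis x = δ)).card = 2 ^ z (gen δ)
  card_gen : ∀ j ≤ R, (univ.filter (fun δ => gen δ = j)).card = 2 ^ y j
  zR : z R = 0
  hz : ∀ j < R, m ≤ 2 ^ z j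
  hk : ∀ j ≤ R, k j ≤ 2 ^ y j

namespace Setup

variable {V Δ : Type} [Fintype V] [Fintype Δ] (X : Setup V Δ)

/-- block size -/
def bs (j : ℕ) : ℕ := if j < X.R then X.m else 1

/-- generation of a vertex -/
def gv (x : V) : ℕ := X.gen (X.dis x)

/-- the district as a set of vertices -/
noncomputable def dset (δ : Δ) : Finset V := univ.filter (fun x => X.dis x = δ)

/-- the part of `A` in the district `δ` -/
noncomputable def part (A : Finset V) (δ : Δ) : Finset V := A.filter (fun x => X.dis x = δ)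

/-- the structures -/
def Adm (A : Finset V) : Prop :=
  (∀ δ, (X.part A δ).card = 0 ∨ (X.part A δ).card = X.bs (X.gen δ)) ∧
  ∀ j ≤ X.R, ((A.image X.dis).filter (fun δ => X.gen δ = j)).card = X.k j

/-- the nonempty subsets of structures -/
noncomputable def SS0 : Finset (Finset V) :=
  univ.filter (fun S => S.Nonempty ∧ ∃ A, X.Adm A ∧ S ⊆ A)

/-- the number of possible blocks in a district -/
def NN (j : ℕ) : ℕ := (2 ^ X.z j).choose (X.bs j)

/-- the number of districts of generation `j` touched by `S` -/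
noncomputable def aa (j : ℕ) (S : Finset V) : ℕ :=
  ((S.image X.dis).filter (fun δ => X.gen δ = j)).card

/-- the number of full districts of generation `j` -/
noncomputable def ff (j : ℕ) (S : Finset V) : ℕ :=
  (univ.filter (fun δ => X.gen δ = j ∧ (X.part S δ).card = X.bs j)).card

/-- the number of vertices of `S` in the generations after `j` -/
noncomputable def later (j : ℕ) (S : Finset V) : ℕ := (S.filter (fun x => j < X.gv x)).card

/-- pairs inside a district -/
noncomputable def inner : Finset (Sym2 V) :=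
  univ.filter (fun e => ¬ e.IsDiag ∧ (∀ x ∈ e, ∀ y ∈ e, X.dis x = X.dis y) ∧
    e.toFinset ∈ X.SS0)

/-- pairs in generation `j`, in different districts -/
noncomputable def cross (j : ℕ) : Finset (Sym2 V) :=
  univ.filter (fun e => (∀ x ∈ e, X.gv x = j) ∧ (∃ x ∈ e, ∃ y ∈ e, X.dis x ≠ X.dis y) ∧
    e.toFinset ∈ X.SS0)

noncomputable def ein (S : Finset V) : ℕ := (X.inner.filter (fun e => e.toFinset ⊆ S)).card

noncomputable def ecr (j : ℕ) (S : Finset V) : ℕ :=
  ((X.cross j).filter (fun e => e.toFinset ⊆ S)).card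

/-- the number of (vertex, older full district of generation `j`) pairs -/
noncomputable def st (j : ℕ) (S : Finset V) : ℕ := X.ff j S * X.later j S

/-- the product of the multipliers inside `S` which are still to come before the edges of
generation `j` are played -/
noncomputable def wE (j : ℕ) (S : Finset V) : ℝ :=
  (∏ i ∈ Ico j X.R, ((2 : ℝ) ^ (X.ecr i S) * (X.NN i : ℝ) ^ (X.ff i S) *
    ((X.m : ℝ) + 1) ^ (X.st i S))) * 2 ^ (X.ecr X.R S)

/-- the same before the selection of generation `j` (`j < R`) -/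
noncomputable def wS (j : ℕ) (S : Finset V) : ℝ :=
  (X.NN j : ℝ) ^ (X.ff j S) * ((X.m : ℝ) + 1) ^ (X.st j S) * X.wE (j + 1) S

/-- the same before the stars to generation `j` (`j < R`) -/
noncomputable def wT (j : ℕ) (S : Finset V) : ℝ :=
  ((X.m : ℝ) + 1) ^ (X.st j S) * X.wE (j + 1) S

/-- the same at the very beginning -/
noncomputable def w0 (S : Finset V) : ℝ := 2 ^ (X.ein S) * X.wE 0 S

/-- the districts completed between `S` and `T` (touched by `S`) -/
noncomputable def compl (S T : Finset V) : Finset Δ :=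
  univ.filter (fun δ => (X.part S δ).Nonempty ∧ (X.part S δ).card < X.bs (X.gen δ) ∧
    (X.part T δ).card = X.bs (X.gen δ))

/-- in the generations before `j` a structure meets a district in nothing or in the selected
block -/
def Sel (j : ℕ) (Y : Δ → Finset V) (S : Finset V) : Prop :=
  ∀ δ, X.gen δ < j → X.part S δ = ∅ ∨ X.part S δ = Y δ

noncomputable def SSt (j : ℕ) (Y : Δ → Finset V) : Finset (Finset V) :=
  X.SS0.filter (fun S => X.Sel j Y S)

/-- the (log of the inverse of the) mass of `T` when the generations before `j` are selected -/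
noncomputable def pc (j : ℕ) (T : Finset V) : ℕ :=
  ∑ δ ∈ T.image X.dis,
    (X.y (X.gen δ) + if X.gen δ < j then 0 else X.z (X.gen δ) * (X.part T δ).card)

/-- the number of structures containing `S` -/
noncomputable def cnt (S : Finset V) : ℕ := (univ.filter (fun A => X.Adm A ∧ S ⊆ A)).card

/-- initial weights -/
noncomputable def phi0 (A : Finset V) : ℝ := if X.Adm A then 1 else 0

/-- a capacity: `c G(S) / w(S)` -/
noncomputable def capOf (c : ℝ) (G w : Finset V → ℝ) (S : Finset V) : ℝ := c * G S / w S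

/-- the data `G` (final capacities, up to the factor `c`), `ν`, and all size conditions -/
structure Sz (G : Finset V → ℝ) (ν E : ℝ) (zm D : ℕ) : Prop where
  pos : ∀ S, 0 < G S
  nu0 : 0 ≤ ν
  nu1 : ν ≤ 1
  E1 : 1 ≤ E
  slope : ∀ S ∈ X.SS0, ∀ T ∈ X.SS0, S ⊂ T →
    G T ≤ ν * G S * ∏ δ ∈ X.compl S T, (X.NN (X.gen δ) : ℝ)
  zm_z : ∀ j < X.R, zm ≤ X.z j
  zm_y : ∀ j ≤ X.R, zm ≤ X.y j
  bd : ∀ j ≤ X.R, ∀ T ∈ X.SS0,
    (∀ δ, X.gen δ < j → (X.part T δ).card = 0 ∨ (X.part T δ).card = X.bs (X.gen δ)) →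
    T.card ≤ 2 * X.m + 2 →
    G T * 2 ^ (X.pc j T) ≤ E * ∏ i ∈ Ico j X.R, (X.NN i : ℝ) ^ (X.ff i T)
  g0 : ∀ i ≤ X.R, ∀ j ≤ X.R, ∀ l ≤ X.R,
    X.y i + 2 * X.z i + D ≤ (X.y j + X.z j) + (X.y l + X.z l)
  g1 : ∀ j < X.R, ∀ i ≤ X.R, j < i → X.y j + X.z j + D ≤ X.y i + X.z i
  g2 : ∀ j < X.R, ∀ i ≤ X.R, ∀ l ≤ X.R, j < i → j < l →
    X.y X.R + X.y j + D ≤ (X.y i + X.z i) + (X.y l + X.z l)

/-- the state of the game: the generations before `j` are selected, the pairs with `fp x y` are
finished inside every structure of positive weight -/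
structure Inv {n : ℕ} (emb : V ↪ Fin n) (j : ℕ) (Y : Δ → Finset V) (fp : V → V → Prop)
    (φ : Finset V → ℝ) (M B : Finset (Sym2 (Fin n))) : Prop where
  nonneg : ∀ A, 0 ≤ φ A
  supp : ∀ A, φ A ≠ 0 → X.Adm A ∧ X.Sel j Y A
  alive : AliveB emb φ B
  disj : Disjoint M B
  sub : B ⊆ edges n
  ycard : ∀ δ, X.gen δ < j → Y δ ⊆ X.dset δ ∧ (Y δ).card = X.m
  fin : ∀ A, φ A ≠ 0 → ∀ x ∈ A, ∀ y ∈ A, x ≠ y → fp x y → s(emb x, emb y) ∈ M

/-- the finished pairs before the edges of generation `j` are played -/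
def fpE (j : ℕ) (x y : V) : Prop := X.dis x = X.dis y ∨ X.gv x < j ∨ X.gv y < j

/-- the finished pairs after the edges of generation `j` are played -/
def fpS (j : ℕ) (x y : V) : Prop := X.fpE j x y ∨ (X.gv x = j ∧ X.gv y = j)

/-- the error scale -/
noncomputable def err (ν E : ℝ) (zm D : ℕ) : ℝ := E * (ν + (1 / 2) ^ zm + (1 / 2) ^ D)

/-- the cost of `S`: a touched district costs `y`, a vertex in a district which is not full
costs `z` -/
noncomputable def cost (S : Finset V) : ℝ :=
  ∑ δ ∈ S.image X.dis, ((X.y (X.gen δ) : ℝ) +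
    if (X.part S δ).card < X.bs (X.gen δ) then (X.z (X.gen δ) : ℝ) * (X.part S δ).card else 0)

/-- minus the logarithm of the final capacity -/
noncomputable def mu (g Γ Tm : ℝ) (S : Finset V) : ℝ :=
  min (X.cost S - (2 * g + Γ) * S.card) Tm + Γ * S.card

/-- the final capacity (up to a constant factor) -/
noncomputable def GG (g Γ Tm : ℝ) (S : Finset V) : ℝ := (2 : ℝ) ^ (-(X.mu g Γ Tm S))

end Setup

end Pool.Agent.Helper75.CG
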