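import Pool.Agent.Helper75.CG.Lower0
import Pool.Agent.Helper75.CH.MixOf
import Pool.Agent.Helper87.CH.Chain
import Pool.Agent.Helper36.CG.Single

/-!
# The lower bound in the `(m : m)` clique game: `(C_m - ε) log₂ n ≤ q_m(n)`
-/

set_option autoImplicit false

namespace Pool.Agent.Helper75.CG

open scoped Classical
open Pool.Agent.Helper65.CliqueGame
open Pool.Agent.Helper65.CG

theorem lower_mix : LowerMix := lower_mix_of (fun m R hm => Setup.chain m R hm)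

theorem lower_static (m : ℕ) (hm : m = 4 ∨ m = 5) (ε : ℝ) (hε : 0 < ε) :
    ∃ n₀ : ℕ, ∀ n ≥ n₀, ∀ q : ℕ, (q : ℝ) ≤
      ((1 + √(m * (m * Real.logb 2 (m + 1) - 2 * Real.logb 2 (m + 1) + 1) /
        (m - Real.logb 2 (m + 1)))) / Real.logb 2 (m + 1) - ε) * Real.logb 2 n →
      MakerWins n m q true ∅ ∅ := lower_static_of lower_mix m hm ε hε

/-- **The lower bound**, as a statement about the game. -/
theorem lower_all (m : ℕ) (hm : 1 ≤ m) (ε : ℝ) (hε : 0 < ε) : ∃ n₀ : ℕ, ∀ n ≥ n₀, ∀ q : ℕ,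
    (q : ℝ) ≤ (Cst m - ε) * Lg n → MakerWins n m q true ∅ ∅ :=
  lower_all_of lower_two lower_static m hm ε hε

/-- **The lower bound** for `q_m(n)`. -/
theorem lower_qm (m : ℕ) (hm : 1 ≤ m) (ε : ℝ) (hε : 0 < ε) :
    ∃ n₀ : ℕ, ∀ n ≥ n₀, (Cst m - ε) * Lg n ≤ qm m n :=
  lower_qm_of m (lower_all m hm) ε hε

end Pool.Agent.Helper75.CG
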