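import Pool.Agent.Helper65.CG.Defs2
import Pool.Agent.Helper85.CliqueLB

/-!
# The lower bound `(C_m - ε) log₂ n ≤ q_m(n)` from the bounds for `m ≤ 3` and `m = 4, 5`
-/

set_option autoImplicit false

namespace Pool.Agent.Helper75.CG

open scoped Classical
open Filter Topology
open Pool.Agent.Helper65.CliqueGame
open Pool.Agent.Helper65.CG

namespace LowerAux

theorem makerWins_zero {n m : ℕ} (hm : 1 ≤ m) : MakerWins n m 0 true ∅ ∅ :=
  Pool.Agent.Helper85.CliqueLB.wins_of_clique hm _ _ _ _ le_rfl ⟨∅, by simp, by simp⟩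

theorem le_of_makerWins {n m q : ℕ} {t : Bool} {M B : Finset (Sym2 (Fin n))}
    (h : MakerWins n m q t M B) : q ≤ n := by
  have key : ∀ M : Finset (Sym2 (Fin n)), HasClique q M → q ≤ n := by
    rintro M ⟨A, hA, -⟩
    have := Finset.card_le_univ A
    rw [Fintype.card_fin] at this
    omega
  induction h with
  | finish t M B _ hc => exact key M hc
  | maker M B S _ _ _ ih => exact ih
  | breaker M B hne _ ih =>
    classical
    obtain ⟨S, _, hS⟩ := Pool.Agent.Helper85.CliqueLB.exists_legal m M B ∅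
      (Finset.empty_subset _) (by simp)
    exact ih S hS

theorem le_qm {m n q : ℕ} (h : MakerWins n m q true ∅ ∅) : q ≤ qm m n :=
  le_csSup ⟨n, fun _ hq => le_of_makerWins hq⟩ h

theorem qm_wins {m : ℕ} (hm : 1 ≤ m) (n : ℕ) : MakerWins n m (qm m n) true ∅ ∅ :=
  Nat.sSup_mem (s := {q | MakerWins n m q true ∅ ∅}) ⟨0, makerWins_zero hm⟩
    ⟨n, fun _ hq => le_of_makerWins hq⟩

end LowerAux

open LowerAux

/-- all cases of the lower bound together -/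
theorem lower_all_of
    (h2 : ∀ m : ℕ, 1 ≤ m → ∀ ε : ℝ, 0 < ε → ∃ n₀ : ℕ, ∀ n ≥ n₀, ∀ q : ℕ,
      (q : ℝ) ≤ (2 - ε) * Real.logb 2 n → MakerWins n m q true ∅ ∅)
    (h4 : ∀ m : ℕ, m = 4 ∨ m = 5 → ∀ ε : ℝ, 0 < ε → ∃ n₀ : ℕ, ∀ n ≥ n₀, ∀ q : ℕ, (q : ℝ) ≤
      ((1 + √(m * (m * Real.logb 2 (m + 1) - 2 * Real.logb 2 (m + 1) + 1) /
        (m - Real.logb 2 (m + 1)))) / Real.logb 2 (m + 1) - ε) * Real.logb 2 n →
      MakerWins n m q true ∅ ∅)
    (m : ℕ) (hm : 1 ≤ m) (ε : ℝ) (hε : 0 < ε) : ∃ n₀ : ℕ, ∀ n ≥ n₀, ∀ q : ℕ,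
      (q : ℝ) ≤ (Cst m - ε) * Lg n → MakerWins n m q true ∅ ∅ := by
  unfold Cst Lg
  by_cases h3 : m ≤ 3
  · simp only [h3, if_true]
    exact h2 m hm ε hε
  · by_cases h5 : m ≤ 5
    · simp only [h3, h5, if_true, if_false]
      exact h4 m (by omega) ε hε
    · simp only [h3, h5, if_false]
      have hm0 : (0 : ℝ) < m := by exact_mod_cast hm
      have hm1 : (1 : ℝ) ≤ m := by exact_mod_cast hm
      have hc0 : 0 < Real.logb 2 ((m : ℝ) + 1) := Real.logb_pos (by norm_num) (by linarith)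
      obtain ⟨n₀, h⟩ := Pool.Agent.Helper85.CliqueLB.lower_bound m hm
        (ε * Real.logb 2 ((m : ℝ) + 1) / m) (by positivity)
      refine ⟨n₀, fun n hn q hq => h n hn q ?_⟩
      convert hq using 2
      field_simp

/-- the lower bound for `q_m(n)` -/
theorem lower_qm_of (m : ℕ)
    (h : ∀ ε : ℝ, 0 < ε → ∃ n₀ : ℕ, ∀ n ≥ n₀, ∀ q : ℕ,
      (q : ℝ) ≤ (Cst m - ε) * Lg n → MakerWins n m q true ∅ ∅)
    (ε : ℝ) (hε : 0 < ε) : ∃ n₀ : ℕ, ∀ n ≥ n₀, (Cst m - ε) * Lg n ≤ qm m n := by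
  obtain ⟨n₁, h1⟩ := h (ε / 2) (by positivity)
  have hlim : Tendsto (fun n : ℕ => Lg n) atTop atTop :=
    (Real.tendsto_logb_atTop (by norm_num)).comp tendsto_natCast_atTop_atTop
  obtain ⟨n₂, h2⟩ := eventually_atTop.1 (hlim.eventually_ge_atTop (2 / ε))
  refine ⟨max n₁ n₂, fun n hn => ?_⟩
  have h3 := h2 n ((le_max_right _ _).trans hn)
  have hL : 0 ≤ Lg n := le_trans (by positivity) h3
  rw [div_le_iff₀ hε] at h3
  by_cases hY : 0 ≤ (Cst m - ε / 2) * Lg n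
  · have h4 := h1 n ((le_max_left _ _).trans hn) ⌊(Cst m - ε / 2) * Lg n⌋₊ (Nat.floor_le hY)
    have h5 : ((⌊(Cst m - ε / 2) * Lg n⌋₊ : ℕ) : ℝ) ≤ qm m n := by exact_mod_cast le_qm h4
    have h6 := Nat.lt_floor_add_one ((Cst m - ε / 2) * Lg n)
    nlinarith
  · rw [not_le] at hY
    have h5 : (0 : ℝ) ≤ qm m n := Nat.cast_nonneg _
    nlinarith

end Pool.Agent.Helper75.CG
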